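import Pool.Agent.N408.IB.Stm

/-!
# Project IB (helper408), leaf SGN0 (helper655): the sign of the belt mass at `w = 0`
-/

set_option autoImplicit false

open Real Set MeasureTheory

namespace N655.IB.SGN0

open IB408

/-! ### numerical lemmas -/

theorem b_val : b = 1 / 1000000 := rfl

theorem b_pos : 0 < b := by rw [b_val]; norm_num

theorem cube_mono {x y : ℝ} (h : x ≤ y) : x ^ 3 ≤ y ^ 3 :=
  (Odd.strictMono_pow (by decide : Odd 3)).monotone h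

/-- average of cubes, no displacement -/
theorem num1 {o : ℝ} (h0 : 0 ≤ o) (h1 : o ≤ (51 / 10000) * b ^ 2) :
    ((1 + b ^ 3 + o) ^ 3 + (1 + b ^ 3 - o) ^ 3) / 2 ≤ 1 + (301 / 100) * b ^ 3 := by
  have h2 : o ^ 2 ≤ ((51 / 10000) * b ^ 2) ^ 2 := pow_le_pow_left₀ h0 h1 2
  have e : ((1 + b ^ 3 + o) ^ 3 + (1 + b ^ 3 - o) ^ 3) / 2 =
      (1 + b ^ 3) ^ 3 + 3 * (1 + b ^ 3) * o ^ 2 := by ring
  rw [e]
  have h3 : 3 * (1 + b ^ 3) * o ^ 2 ≤ 3 * (1 + b ^ 3) * ((51 / 10000) * b ^ 2) ^ 2 := by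
    apply mul_le_mul_of_nonneg_left h2
    rw [b_val]; norm_num
  refine (add_le_add_right h3 _).trans ?_
  rw [b_val]
  norm_num

/-- the displacement -/
noncomputable def e0 : ℝ := (58 / 10000) * b

theorem e0_val : e0 = 58 / 10000000000 := by unfold e0; rw [b_val]; norm_num

/-- average of cubes, with the displacement -/
theorem num2 {p m : ℝ} (hp0 : 0 ≤ p) (hp : p ≤ (51 / 10000) * b ^ 2) (hm0 : 0 ≤ m)
    (hm : m ≤ (51 / 10000) * b ^ 2) (hs : p - m ≤ -((66 / 1000000) * b ^ 2)) :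
    (((1 + b ^ 3 + p) / cos e0) ^ 3 + ((1 + b ^ 3 - m) / cos e0) ^ 3) / 2 ≤
      1 + (301 / 100) * b ^ 3 - (47 / 1000000) * b ^ 2 := by
  have hc1 : 1 - e0 ^ 2 / 2 ≤ cos e0 := one_sub_sq_div_two_le_cos
  have hc2 : (0 : ℝ) < 1 - e0 ^ 2 / 2 := by rw [e0_val]; norm_num
  have hc3 : 0 < cos e0 := hc2.trans_le hc1
  obtain ⟨k, hk⟩ : ∃ k, k = 1 + (1683 / 100000000) * b ^ 2 := ⟨_, rfl⟩
  have hkc : 1 / cos e0 ≤ k := by
    rw [div_le_iff₀ hc3]
    have h1 : 1 ≤ k * (1 - e0 ^ 2 / 2) := by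
      rw [hk, e0_val, b_val]; norm_num
    have h2 : 0 < k := by rw [hk, b_val]; norm_num
    exact h1.trans (mul_le_mul_of_nonneg_left hc1 h2.le)
  have hb3 : (0 : ℝ) < 1 + b ^ 3 - m := by
    have : (51 / 10000) * b ^ 2 < 1 := by rw [b_val]; norm_num
    have : 0 < b ^ 3 := pow_pos b_pos 3
    linarith
  have hA : (1 + b ^ 3 + p) / cos e0 ≤ (1 + b ^ 3 + p) * k := by
    rw [div_eq_mul_one_div]
    apply mul_le_mul_of_nonneg_left hkc
    have : 0 < b ^ 3 := pow_pos b_pos 3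
    linarith
  have hB : (1 + b ^ 3 - m) / cos e0 ≤ (1 + b ^ 3 - m) * k := by
    rw [div_eq_mul_one_div]
    exact mul_le_mul_of_nonneg_left hkc hb3.le
  have h1 := cube_mono hA
  have h2 := cube_mono hB
  have h3 : p ^ 2 ≤ ((51 / 10000) * b ^ 2) ^ 2 := pow_le_pow_left₀ hp0 hp 2
  have h4 : m ^ 2 ≤ ((51 / 10000) * b ^ 2) ^ 2 := pow_le_pow_left₀ hm0 hm 2
  have h5 : p ^ 3 ≤ ((51 / 10000) * b ^ 2) ^ 3 := pow_le_pow_left₀ hp0 hp 3
  have h6 : 0 ≤ m ^ 3 := pow_nonneg hm0 3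
  have e : (((1 + b ^ 3 + p) * k) ^ 3 + ((1 + b ^ 3 - m) * k) ^ 3) / 2 =
      k ^ 3 * ((1 + b ^ 3) ^ 3 + (3 / 2) * (1 + b ^ 3) ^ 2 * (p - m) +
        (3 / 2) * (1 + b ^ 3) * (p ^ 2 + m ^ 2) + (p ^ 3 - m ^ 3) / 2) := by ring
  have h7 : (1 + b ^ 3) ^ 3 + (3 / 2) * (1 + b ^ 3) ^ 2 * (p - m) +
        (3 / 2) * (1 + b ^ 3) * (p ^ 2 + m ^ 2) + (p ^ 3 - m ^ 3) / 2 ≤
      (1 + b ^ 3) ^ 3 + (3 / 2) * (1 + b ^ 3) ^ 2 * (-((66 / 1000000) * b ^ 2)) +
        (3 / 2) * (1 + b ^ 3) * (((51 / 10000) * b ^ 2) ^ 2 + ((51 / 10000) * b ^ 2) ^ 2) +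
        ((51 / 10000) * b ^ 2) ^ 3 / 2 := by
    have g1 : (3 / 2) * (1 + b ^ 3) ^ 2 * (p - m) ≤
        (3 / 2) * (1 + b ^ 3) ^ 2 * (-((66 / 1000000) * b ^ 2)) := by
      apply mul_le_mul_of_nonneg_left hs
      rw [b_val]; norm_num
    have g2 : (3 / 2) * (1 + b ^ 3) * (p ^ 2 + m ^ 2) ≤
        (3 / 2) * (1 + b ^ 3) * (((51 / 10000) * b ^ 2) ^ 2 + ((51 / 10000) * b ^ 2) ^ 2) := by
      apply mul_le_mul_of_nonneg_left (add_le_add h3 h4)
      rw [b_val]; norm_num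
    linarith
  have hk3 : (0 : ℝ) ≤ k ^ 3 := by rw [hk, b_val]; norm_num
  have h8 := mul_le_mul_of_nonneg_left h7 hk3
  have h9 : k ^ 3 * ((1 + b ^ 3) ^ 3 + (3 / 2) * (1 + b ^ 3) ^ 2 * (-((66 / 1000000) * b ^ 2)) +
        (3 / 2) * (1 + b ^ 3) * (((51 / 10000) * b ^ 2) ^ 2 + ((51 / 10000) * b ^ 2) ^ 2) +
        ((51 / 10000) * b ^ 2) ^ 3 / 2) ≤ 1 + (301 / 100) * b ^ 3 - (47 / 1000000) * b ^ 2 := by
    rw [hk, b_val]
    norm_num
  linarith

/-- the difference of the bump -/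
theorem diff_oc (h3 : S_ODD1) {θ : ℝ} (h1 : b / 2 ≤ θ) (h2 : θ ≤ 4 / 5 * b) :
    oc (θ + e0) - oc (θ - e0) ≤ -((66 / 1000000) * b ^ 2) := by
  obtain ⟨⟨hal1, hal2, -, hcc, hc0, hc1, hc2, hc3⟩, -⟩ := h3
  have hb := b_pos
  have he : e0 = (58 / 10000) * b := rfl
  have he0 : 0 < e0 := by rw [he]; positivity
  have hθ0 : 0 < θ := by linarith
  have hb1 : b ≤ 1 / 1000000 := le_of_eq b_val
  -- positions
  have hpos1 : c ≤ cos (θ + e0) := by
    rw [← hcc]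
    exact cos_le_cos_of_nonneg_of_le_pi (by linarith) (by linarith [pi_gt_three]) (by linarith)
  have hpos2 : c ≤ cos (θ - e0) := by
    rw [← hcc]
    exact cos_le_cos_of_nonneg_of_le_pi (by linarith) (by linarith [pi_gt_three]) (by linarith)
  have hD : 0 < 1 - c := by linarith
  unfold oc
  rw [max_eq_left (by linarith), max_eq_left (by linarith), cos_add, cos_sub]
  -- lower bounds
  have hsθ : θ * (999 / 1000) ≤ sin θ := by
    have g1 := sin_gt_sub_cube hθ0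
    have g2 : θ ^ 2 ≤ 1 / 1000000 := by
      have : θ ≤ 1 / 1000 := by linarith
      calc θ ^ 2 ≤ (1 / 1000) ^ 2 := pow_le_pow_left₀ hθ0.le this 2
        _ = 1 / 1000000 := by norm_num
    nlinarith
  have hse : e0 * (999 / 1000) ≤ sin e0 := by
    have g1 := sin_gt_sub_cube he0
    have g2 : e0 ^ 2 ≤ 1 / 1000000 := by rw [e0_val]; norm_num
    nlinarith
  have hcθ : 1 - θ ^ 2 / 2 ≤ cos θ := one_sub_sq_div_two_le_cos
  have hce : 1 - e0 ^ 2 / 2 ≤ cos e0 := one_sub_sq_div_two_le_cos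
  have hcθ0 : 0 ≤ 1 - θ ^ 2 / 2 := by nlinarith
  have hce0 : (0 : ℝ) ≤ 1 - e0 ^ 2 / 2 := by rw [e0_val]; norm_num
  have hC : (1 - c) - (θ ^ 2 + e0 ^ 2) / 2 ≤ cos θ * cos e0 - c := by
    have g1 : (1 - θ ^ 2 / 2) * (1 - e0 ^ 2 / 2) ≤ cos θ * cos e0 :=
      mul_le_mul hcθ hce hce0 (hcθ0.trans hcθ)
    nlinarith [mul_nonneg (sq_nonneg θ) (sq_nonneg e0)]
  have hS : (θ * (999 / 1000)) * (e0 * (999 / 1000)) ≤ sin θ * sin e0 :=
    mul_le_mul hsθ hse (by positivity) (le_trans (by positivity) hsθ)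
  -- normalisation
  obtain ⟨u, hu⟩ : ∃ u, u = θ / b := ⟨_, rfl⟩
  have hθu : θ = u * b := by rw [hu]; field_simp
  have hu1 : 1 / 2 ≤ u := by
    rw [hu, le_div_iff₀ hb]; linarith
  have hu2 : u ≤ 4 / 5 := by
    rw [hu, div_le_iff₀ hb]; linarith
  have hpoly : 2879 / 10000 ≤ u * (1 - (u ^ 2 + (58 / 10000) ^ 2)) := by
    nlinarith [mul_nonneg (sub_nonneg.2 hu2) (by nlinarith : (0 : ℝ) ≤ u ^ 2 + (4 / 5) * u - 36 / 100)]
  have hfac : (1 - (u ^ 2 + (58 / 10000) ^ 2)) ≤ ((1 - c) - (θ ^ 2 + e0 ^ 2) / 2) / (1 - c) := by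
    rw [le_div_iff₀ hD, hθu, he]
    have g1 : 0 ≤ u ^ 2 + (58 / 10000) ^ 2 := by positivity
    nlinarith [mul_le_mul_of_nonneg_left hc2 g1]
  have hfac0 : (0 : ℝ) ≤ 1 - (u ^ 2 + (58 / 10000) ^ 2) := by nlinarith
  have hR : (1 - (u ^ 2 + (58 / 10000) ^ 2)) ≤ (cos θ * cos e0 - c) / (1 - c) :=
    hfac.trans (div_le_div_of_nonneg_right hC hD.le)
  have hprod : (u * b * (999 / 1000)) * ((58 / 10000) * b * (999 / 1000)) *
      (1 - (u ^ 2 + (58 / 10000) ^ 2)) ≤ sin θ * sin e0 * ((cos θ * cos e0 - c) / (1 - c)) := by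
    rw [hθu, he] at hS
    rw [hθu, he] at hR ⊢
    exact mul_le_mul hS hR hfac0 (le_trans (by positivity) hS)
  have e1 : 1 / 100 * (cos θ * cos e0 - sin θ * sin e0 - c) ^ 2 / (1 - c) -
      1 / 100 * (cos θ * cos e0 + sin θ * sin e0 - c) ^ 2 / (1 - c) =
      -(1 / 25) * (sin θ * sin e0 * ((cos θ * cos e0 - c) / (1 - c))) := by
    field_simp
    ring
  rw [e1]
  have h10 : (66 / 1000000) * b ^ 2 ≤ (1 / 25) * ((u * b * (999 / 1000)) *
      ((58 / 10000) * b * (999 / 1000)) * (1 - (u ^ 2 + (58 / 10000) ^ 2))) := by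
    have e2 : (1 / 25) * ((u * b * (999 / 1000)) *
      ((58 / 10000) * b * (999 / 1000)) * (1 - (u ^ 2 + (58 / 10000) ^ 2))) =
      ((1 / 25) * (999 / 1000) ^ 2 * (58 / 10000)) * b ^ 2 *
        (u * (1 - (u ^ 2 + (58 / 10000) ^ 2))) := by ring
    rw [e2]
    have g1 : 0 ≤ ((1 / 25) * (999 / 1000) ^ 2 * (58 / 10000)) * b ^ 2 := by positivity
    have g2 := mul_le_mul_of_nonneg_left hpoly g1
    refine le_trans ?_ g2
    nlinarith [sq_nonneg b]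
  linarith

section main

variable {q : ℝ → ℝ}

/-- upper bound for `Pcap` everywhere -/
theorem pcap1 (h1 : S_L1) (h3 : S_ODD1) (h5 : S_BAS1) (hq : Adm q) (θ : ℝ) :
    Pcap q θ ≤ 1 + (301 / 100) * b ^ 3 := by
  obtain ⟨-, -, -, ho0, ho1, -⟩ := h3
  have hB := (h5 q hq).1
  have hqb : ∀ x, q x ≤ b ^ 3 := fun x => (le_abs_self _).trans (hq.2.2.2 x)
  have hsm : (52 / 10000) * b ^ 2 ≤ 1 / 10 := by rw [b_val]; norm_num
  have k1 : Leg (hc q 1) θ ≤ 1 + b ^ 3 + oc θ := by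
    have g := (h1 _ (hB 1 (Or.inl rfl)).1 fun ψ => ((hB 1 (Or.inl rfl)).2.1 ψ).trans hsm).2.1 θ 0
      ⟨by norm_num, by norm_num⟩
    rw [add_zero, cos_zero, div_one] at g
    refine g.trans ?_
    unfold hc
    linarith [hqb (sin θ)]
  have k2 : Leg (hc q (-1)) θ ≤ 1 + b ^ 3 - oc θ := by
    have g := (h1 _ (hB (-1) (Or.inr rfl)).1
      fun ψ => ((hB (-1) (Or.inr rfl)).2.1 ψ).trans hsm).2.1 θ 0 ⟨by norm_num, by norm_num⟩
    rw [add_zero, cos_zero, div_one] at g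
    refine g.trans ?_
    unfold hc
    linarith [hqb (sin θ)]
  have k3 := cube_mono k1
  have k4 := cube_mono k2
  have k5 := num1 (ho0 θ) (ho1 θ)
  unfold Pcap
  linarith

/-- upper bound for `Pcap` in the middle of the cap -/
theorem pcap2 (h1 : S_L1) (h3 : S_ODD1) (h5 : S_BAS1) (hq : Adm q) {θ : ℝ} (hθ1 : b / 2 ≤ θ)
    (hθ2 : θ ≤ 4 / 5 * b) :
    Pcap q θ ≤ 1 + (301 / 100) * b ^ 3 - (47 / 1000000) * b ^ 2 := by
  have hd := diff_oc h3 hθ1 hθ2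
  obtain ⟨-, -, -, ho0, ho1, -⟩ := h3
  have hB := (h5 q hq).1
  have hqb : ∀ x, q x ≤ b ^ 3 := fun x => (le_abs_self _).trans (hq.2.2.2 x)
  have hsm : (52 / 10000) * b ^ 2 ≤ 1 / 10 := by rw [b_val]; norm_num
  have he1 : e0 ∈ Icc (-1 : ℝ) 1 := by rw [e0_val]; constructor <;> norm_num
  have he2 : -e0 ∈ Icc (-1 : ℝ) 1 := by rw [e0_val]; constructor <;> norm_num
  have hc3 : 0 < cos e0 := by
    refine lt_of_lt_of_le ?_ (one_sub_sq_div_two_le_cos (x := e0))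
    rw [e0_val]; norm_num
  have k1 : Leg (hc q 1) θ ≤ (1 + b ^ 3 + oc (θ + e0)) / cos e0 := by
    have g := (h1 _ (hB 1 (Or.inl rfl)).1 fun ψ => ((hB 1 (Or.inl rfl)).2.1 ψ).trans hsm).2.1 θ e0
      he1
    refine g.trans (div_le_div_of_nonneg_right ?_ hc3.le)
    unfold hc
    linarith [hqb (sin (θ + e0))]
  have k2 : Leg (hc q (-1)) θ ≤ (1 + b ^ 3 - oc (θ - e0)) / cos e0 := by
    have g := (h1 _ (hB (-1) (Or.inr rfl)).1
      fun ψ => ((hB (-1) (Or.inr rfl)).2.1 ψ).trans hsm).2.1 θ (-e0) he2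
    rw [cos_neg, ← sub_eq_add_neg] at g
    refine g.trans (div_le_div_of_nonneg_right ?_ hc3.le)
    unfold hc
    linarith [hqb (sin (θ - e0))]
  have k3 := cube_mono k1
  have k4 := cube_mono k2
  have k5 := num2 (ho0 (θ + e0)) (ho1 (θ + e0)) (ho0 (θ - e0)) (ho1 (θ - e0)) hd
  unfold Pcap
  linarith

/-- the integral of `(P - 1) sin` over a piece -/
theorem piece (hP : Continuous (Pcap q)) {x y M : ℝ} (hx : 0 ≤ x) (hxy : x ≤ y) (hy : y ≤ 1)
    (h : ∀ θ ∈ Icc x y, Pcap q θ - 1 ≤ M) :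
    ∫ θ in x..y, (Pcap q θ - 1) * sin θ ≤ M * (cos x - cos y) := by
  have e : ∫ θ in x..y, M * sin θ = M * (cos x - cos y) := by
    rw [intervalIntegral.integral_const_mul, integral_sin]
  rw [← e]
  refine intervalIntegral.integral_mono_on hxy ?_ ?_ ?_
  · exact ((hP.sub continuous_const).mul continuous_sin).intervalIntegrable _ _
  · exact (continuous_const.mul continuous_sin).intervalIntegrable _ _
  · intro θ hθ
    refine mul_le_mul_of_nonneg_right (h θ hθ) (sin_nonneg_of_nonneg_of_le_pi ?_ ?_)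
    · exact hx.trans hθ.1
    · have := hθ.2
      linarith [pi_gt_three]

theorem pint1 (h1 : S_L1) (h3 : S_ODD1) (h5 : S_BAS1) (hq : Adm q) (γ : ℝ) :
    Pint q γ ≤ (154 / 100) * b ^ 5 := by
  obtain ⟨⟨hal1, hal2, -, hcc, hc0, hc1, hc2, hc3⟩, -⟩ := id h3
  have hP : Continuous (Pcap q) := (h5 q hq).2.1
  have hb := b_pos
  have hbv := b_val
  have hg0 : 0 ≤ min |γ| al := le_min (abs_nonneg _) (by linarith)
  have hg1 : min |γ| al ≤ al := min_le_right _ _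
  have hal : al ≤ 1 := by linarith
  have g1 := piece (M := (301 / 100) * b ^ 3) hP hg0 hg1 hal (fun θ _ => by
    have := pcap1 h1 h3 h5 hq θ
    linarith)
  unfold Pint
  refine g1.trans ?_
  rw [hcc]
  have g2 : cos (min |γ| al) ≤ 1 := cos_le_one _
  have g3 : cos (min |γ| al) - c ≤ (51 / 100) * b ^ 2 := by linarith
  calc (301 / 100) * b ^ 3 * (cos (min |γ| al) - c)
      ≤ (301 / 100) * b ^ 3 * ((51 / 100) * b ^ 2) :=
        mul_le_mul_of_nonneg_left g3 (by positivity)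
    _ ≤ (154 / 100) * b ^ 5 := by
        rw [b_val]; norm_num

theorem pint2 (h1 : S_L1) (h3 : S_ODD1) (h5 : S_BAS1) (hq : Adm q) {γ : ℝ} (hγ : |γ| ≤ b / 2) :
    Pint q γ ≤ -((75 / 10000000) * b ^ 4) := by
  obtain ⟨⟨hal1, hal2, -, hcc, hc0, hc1, hc2, hc3⟩, -⟩ := id h3
  have hP : Continuous (Pcap q) := (h5 q hq).2.1
  have hb := b_pos
  have hbv := b_val
  have hm : min |γ| al = |γ| := min_eq_left (by linarith)
  have hg0 : 0 ≤ |γ| := abs_nonneg _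
  have hal : al ≤ 1 := by linarith
  have hint : ∀ x y : ℝ, IntervalIntegrable (fun θ => (Pcap q θ - 1) * sin θ) volume x y :=
    fun x y => ((hP.sub continuous_const).mul continuous_sin).intervalIntegrable _ _
  have hall : ∀ θ, Pcap q θ - 1 ≤ (301 / 100) * b ^ 3 := fun θ => by
    have := pcap1 h1 h3 h5 hq θ
    linarith
  have g1 := piece (M := (301 / 100) * b ^ 3) hP hg0 hγ (by linarith) (fun θ _ => hall θ)
  have g2 := piece (M := (301 / 100) * b ^ 3 - (47 / 1000000) * b ^ 2) (x := b / 2)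
    (y := 4 / 5 * b) hP (by linarith) (by linarith) (by linarith) (fun θ hθ => by
      have := pcap2 h1 h3 h5 hq hθ.1 hθ.2
      linarith)
  have g3 := piece (M := (301 / 100) * b ^ 3) (x := 4 / 5 * b) (y := al) hP (by linarith)
    (by linarith) hal (fun θ _ => hall θ)
  unfold Pint
  rw [hm, ← intervalIntegral.integral_add_adjacent_intervals (hint |γ| (b / 2)) (hint (b / 2) al),
    ← intervalIntegral.integral_add_adjacent_intervals (hint (b / 2) (4 / 5 * b))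
      (hint (4 / 5 * b) al)]
  rw [hcc] at g3
  have k1 : cos |γ| ≤ 1 := cos_le_one _
  have k2 : 1 - (b / 2) ^ 2 / 2 ≤ cos (b / 2) := one_sub_sq_div_two_le_cos
  have k3 : cos (4 / 5 * b) ≤ 1 - (4 / 5 * b) ^ 2 / 2 + (4 / 5 * b) ^ 4 * (5 / 96) := by
    have := (abs_le.1 (cos_bound (x := 4 / 5 * b) (by
      rw [abs_of_nonneg (by positivity)]; linarith))).2
    rw [abs_of_nonneg (by positivity : (0 : ℝ) ≤ 4 / 5 * b)] at this
    linarith
  have k4 : (194 / 1000) * b ^ 2 ≤ cos (b / 2) - cos (4 / 5 * b) := by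
    have : (194 / 1000) * b ^ 2 ≤ (1 - (b / 2) ^ 2 / 2) -
        (1 - (4 / 5 * b) ^ 2 / 2 + (4 / 5 * b) ^ 4 * (5 / 96)) := by
      rw [b_val]; norm_num
    linarith
  have k5 : (47 / 1000000) * b ^ 2 * ((194 / 1000) * b ^ 2) ≤
      (47 / 1000000) * b ^ 2 * (cos (b / 2) - cos (4 / 5 * b)) :=
    mul_le_mul_of_nonneg_left k4 (by positivity)
  have k6 : (301 / 100) * b ^ 3 * (cos |γ| - c) ≤ (301 / 100) * b ^ 3 * ((51 / 100) * b ^ 2) :=
    mul_le_mul_of_nonneg_left (by linarith) (by positivity)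
  have k7 : (301 / 100) * b ^ 3 * ((51 / 100) * b ^ 2) -
      (47 / 1000000) * b ^ 2 * ((194 / 1000) * b ^ 2) ≤ -((75 / 10000000) * b ^ 4) := by
    rw [b_val]; norm_num
  nlinarith

/-- bounds for the first correction -/
theorem st1 (h1 : S_L1) (h3 : S_ODD1) (h5 : S_BAS1) (hq : Adm q) (γ : ℝ) :
    -((155 / 100) * b ^ 5) ≤ st q γ := by
  have hp := pint1 h1 h3 h5 hq γ
  have hab := (h5 q hq).2.2.2.2.2.2.2.2.2.1 γ
  obtain ⟨⟨hal1, hal2, -, hcc, hc0, hc1, hc2, hc3⟩, -⟩ := id h3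
  have hb := b_pos
  have hbv := b_val
  have hC : c ≤ cos (min |γ| al) := by
    rw [← hcc]
    exact cos_le_cos_of_nonneg_of_le_pi (le_min (abs_nonneg _) (by linarith))
      (by linarith [pi_gt_three]) (min_le_right _ _)
  have hsmall : (51 / 100) * b ^ 2 ≤ 1 / 10000 ∧ (9 / 1000) * b ^ 4 ≤ 1 / 10000 := by
    rw [b_val]; constructor <;> norm_num
  have hD : 999 / 1000 ≤ cos (min |γ| al) + Pint q γ := by
    have := (abs_le.1 hab).1
    linarith [hsmall.1, hsmall.2]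
  have hD0 : 0 < cos (min |γ| al) + Pint q γ := by linarith
  unfold st
  have e : cos (min |γ| al) / (cos (min |γ| al) + Pint q γ) - 1 =
      -(Pint q γ / (cos (min |γ| al) + Pint q γ)) := by
    field_simp
    ring
  rw [e, neg_le_neg_iff, div_le_iff₀ hD0]
  have h6 : (155 / 100) * b ^ 5 * (999 / 1000) ≤
      (155 / 100) * b ^ 5 * (cos (min |γ| al) + Pint q γ) :=
    mul_le_mul_of_nonneg_left hD (by positivity)
  have h7 : (154 / 100) * b ^ 5 ≤ (155 / 100) * b ^ 5 * (999 / 1000) := by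
    have : 0 < b ^ 5 := by positivity
    linarith
  linarith

theorem st2 (h1 : S_L1) (h3 : S_ODD1) (h5 : S_BAS1) (hq : Adm q) {γ : ℝ} (hγ : |γ| ≤ b / 2) :
    (75 / 10000000) * b ^ 4 ≤ st q γ := by
  have hp := pint2 h1 h3 h5 hq hγ
  have hab := (h5 q hq).2.2.2.2.2.2.2.2.2.1 γ
  obtain ⟨⟨hal1, hal2, -, hcc, hc0, hc1, hc2, hc3⟩, -⟩ := id h3
  have hb := b_pos
  have hbv := b_val
  have hC : c ≤ cos (min |γ| al) := by
    rw [← hcc]
    exact cos_le_cos_of_nonneg_of_le_pi (le_min (abs_nonneg _) (by linarith))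
      (by linarith [pi_gt_three]) (min_le_right _ _)
  have hsmall : (51 / 100) * b ^ 2 ≤ 1 / 10000 ∧ (9 / 1000) * b ^ 4 ≤ 1 / 10000 := by
    rw [b_val]; constructor <;> norm_num
  have hD : 999 / 1000 ≤ cos (min |γ| al) + Pint q γ := by
    have := (abs_le.1 hab).1
    linarith [hsmall.1, hsmall.2]
  have hD0 : 0 < cos (min |γ| al) + Pint q γ := by linarith
  have hD1 : cos (min |γ| al) + Pint q γ ≤ 1 := by
    have := cos_le_one (min |γ| al)
    have h9 : 0 < (75 / 10000000) * b ^ 4 := by positivity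
    linarith
  unfold st
  have e : cos (min |γ| al) / (cos (min |γ| al) + Pint q γ) - 1 =
      (-Pint q γ) / (cos (min |γ| al) + Pint q γ) := by
    field_simp
    ring
  rw [e, le_div_iff₀ hD0]
  have h6 : (75 / 10000000) * b ^ 4 * (cos (min |γ| al) + Pint q γ) ≤
      (75 / 10000000) * b ^ 4 * 1 := mul_le_mul_of_nonneg_left hD1 (by positivity)
  linarith

/-- lower bound for `pt` -/
theorem pt_lb (h2 : S_L2) (h5 : S_BAS1) (hq : Adm q) {t M : ℝ} (hM : M ≤ st q (arcsin t))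
    (hM2 : -1 ≤ M - 2 * b ^ 6) : 3 * (M - 2 * b ^ 6) ≤ pt q 0 t := by
  obtain ⟨-, -, -, -, hst, hst1, hst2, -, hst4, -, -⟩ := h5 q hq
  have hhb : ∀ γ, hb q 0 γ = 1 + st q γ := by
    intro γ
    unfold hb ob
    ring
  have hbv := b_val
  have hcont : Continuous (hb q 0) := by
    have : hb q 0 = fun γ => 1 + st q γ := funext hhb
    rw [this]
    exact continuous_const.add hst
  have hsm : b ^ 4 / 100 ≤ 1 / 10 := by rw [b_val]; norm_num
  have hnear : ∀ ψ, |hb q 0 ψ - 1| ≤ 1 / 10 := by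
    intro ψ
    rw [hhb, add_sub_cancel_left]
    exact (hst1 ψ).trans hsm
  have hlip : ∀ x y, |hb q 0 x - hb q 0 y| ≤ b ^ 3 * |x - y| := by
    intro x y
    rw [hhb, hhb, add_sub_add_left_eq_sub]
    exact hst4 x y
  have hL := (h2 _ hcont hnear).2.2.2.1 (b ^ 3) (by rw [b_val]; norm_num)
    (by rw [b_val]; norm_num) hlip
  have k1 : 1 + (M - 2 * b ^ 6) ≤ Leg (hb q 0) (arcsin t) := by
    have := hL (arcsin t)
    rw [hhb] at this
    nlinarith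
  have k2 : 1 + (M - 2 * b ^ 6) ≤ Leg (hb q 0) (-arcsin t) := by
    have := hL (-arcsin t)
    rw [hhb, hst2] at this
    nlinarith
  have k3 := cube_mono k1
  have k4 := cube_mono k2
  have k5 : 1 + 3 * (M - 2 * b ^ 6) ≤ (1 + (M - 2 * b ^ 6)) ^ 3 := by
    have := one_add_mul_le_pow (a := M - 2 * b ^ 6) (by linarith) 3
    push_cast at this
    exact this
  unfold pt Pbelt
  linarith

end main

theorem t (h1 : S_L1) (h2 : S_L2) (h3 : S_ODD1) (h5 : S_BAS1) (h6 : S_BAS2) :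
    IB408.S_SGN0 := by
  intro q hq
  have hb := b_pos
  have hbv := b_val
  have hcont : Continuous (pt q 0) :=
    (h6 q 0 hq le_rfl (by norm_num)).2.2.2.2.2.2.2.2.1
  have hcont' : Continuous fun τ : ℝ => pt q 0 (τ * b) :=
    hcont.comp (continuous_id.mul continuous_const)
  have hint : ∀ x y : ℝ, IntervalIntegrable (fun τ : ℝ => pt q 0 (τ * b)) volume x y :=
    fun x y => hcont'.intervalIntegrable _ _
  have hlow : ∀ t : ℝ, 3 * (-((155 / 100) * b ^ 5) - 2 * b ^ 6) ≤ pt q 0 t := fun t =>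
    pt_lb h2 h5 hq (st1 h1 h3 h5 hq _) (by rw [b_val]; norm_num)
  have hhigh : ∀ τ ∈ Icc (0 : ℝ) (2 / 5), 3 * ((75 / 10000000) * b ^ 4 - 2 * b ^ 6) ≤
      pt q 0 (τ * b) := by
    intro τ hτ
    refine pt_lb h2 h5 hq (st2 h1 h3 h5 hq ?_) (by rw [b_val]; norm_num)
    have hτb0 : 0 ≤ τ * b := mul_nonneg hτ.1 hb.le
    rw [abs_of_nonneg (arcsin_nonneg.2 hτb0)]
    have g1 : τ * b ≤ 2 / 5 * b := mul_le_mul_of_nonneg_right hτ.2 hb.le
    have g2 : 2 / 5 * b ≤ sin (b / 2) := by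
      have := sin_gt_sub_cube (x := b / 2) (by linarith)
      have g3 : 2 / 5 * b ≤ b / 2 - (b / 2) ^ 3 / 6 := by
        rw [b_val]; norm_num
      linarith
    refine (arcsin_le_iff_le_sin' ⟨?_, ?_⟩).2 (g1.trans g2)
    · linarith [pi_gt_three]
    · linarith [pi_gt_three]
  unfold Av
  rw [← intervalIntegral.integral_add_adjacent_intervals (hint 0 (2 / 5)) (hint (2 / 5) 1)]
  have i1 : ∫ _τ in (0 : ℝ)..(2 / 5), 3 * ((75 / 10000000) * b ^ 4 - 2 * b ^ 6) ≤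
      ∫ τ in (0 : ℝ)..(2 / 5), pt q 0 (τ * b) :=
    intervalIntegral.integral_mono_on (by norm_num) (continuous_const.intervalIntegrable _ _)
      (hint _ _) hhigh
  have i2 : ∫ _τ in (2 / 5 : ℝ)..1, 3 * (-((155 / 100) * b ^ 5) - 2 * b ^ 6) ≤
      ∫ τ in (2 / 5 : ℝ)..1, pt q 0 (τ * b) :=
    intervalIntegral.integral_mono_on (by norm_num) (continuous_const.intervalIntegrable _ _)
      (hint _ _) fun τ _ => hlow _
  rw [intervalIntegral.integral_const, smul_eq_mul] at i1 i2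
  have i3 : 0 < (2 / 5 - 0 : ℝ) * (3 * ((75 / 10000000) * b ^ 4 - 2 * b ^ 6)) +
      (1 - 2 / 5 : ℝ) * (3 * (-((155 / 100) * b ^ 5) - 2 * b ^ 6)) := by
    rw [b_val]; norm_num
  linarith

end N655.IB.SGN0
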